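import Mathlib

namespace Pool.Agent.Lib.MP_493d38_lc

/-- the involution of the integers exchanging `i` and `i + 1` whenever `i % 3 = c` -/
def sw (c i : ℤ) : ℤ := if i % 3 = c then i + 1 else if (i - 1) % 3 = c then i - 1 else i

/-- blocks between consecutive edges of colour `c` -/
def blk (c i : ℤ) : ℤ := (i - c - 1) / 3

def Col (x y w : ℤ) : Prop :=
  0 ≤ x ∧ x < 3 ∧ 0 ≤ y ∧ y < 3 ∧ 0 ≤ w ∧ w < 3 ∧ x ≠ y ∧ x ≠ w ∧ y ≠ w

theorem sw_sw (c i : ℤ) : sw c (sw c i) = i := by
  unfold sw
  split_ifs <;> omega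

theorem blk_sw {c d : ℤ} (hc0 : 0 ≤ c) (hc : c < 3) (h : c ≠ d) (i : ℤ) :
    blk c (sw d i) = blk c i := by
  unfold sw blk
  split_ifs <;> omega

theorem sw_near (c i : ℤ) : i - 1 ≤ sw c i ∧ sw c i ≤ i + 1 := by
  unfold sw
  split_ifs <;> omega

theorem blk_near {c i j : ℤ} (h : blk c i = blk c j) : j - 2 ≤ i ∧ i ≤ j + 2 := by
  unfold blk at h
  omega

abbrev St := ℤ × Bool × Bool

def stp (x y w : ℤ) (s : St) (l : Bool) : St :=
  if l then (sw (if s.2.1 then w else y) s.1, !s.2.1, s.2.2)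
  else (sw (if s.2.2 then w else x) s.1, s.2.1, !s.2.2)

def run (W : List Bool) (s : St) : St := W.foldl (stp 0 1 2) s

theorem run_append (U V : List Bool) (s : St) : run (U ++ V) s = run V (run U s) :=
  List.foldl_append

def col (x y w : ℤ) (p : Bool × Bool) : ℤ := if p.1 then (if p.2 then w else x) else y

def s0 : St := (0, false, false)

def Rel (U V : List Bool) (x y w t : ℤ) : Prop :=
  ∃ K : St → St, (∀ s, K (run U s) = stp x y w (K s) false) ∧
    (∀ s, K (run V s) = stp x y w (K s) true) ∧ K s0 = (t, false, false) ∧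
    ∀ s, (K s).2 ≠ (false, false) →
      blk (col x y w (K s).2) (K s).1 = blk (col x y w (K s).2) s.1

theorem Rel.base : Rel [false] [true] 0 1 2 0 :=
  ⟨id, fun _ => rfl, fun _ => rfl, rfl, fun _ _ => rfl⟩

theorem Rel.L {U V : List Bool} {x y w t : ℤ} (hc : Col x y w) (h : Rel U V x y w t) :
    Rel U (U ++ V) w y x (sw x t) := by
  obtain ⟨K, h1, h2, h3, h4⟩ := h
  obtain ⟨-, -, hy0, hy, -, -, -, -, hyw⟩ := hc
  refine ⟨fun s => (if (K s).2.1 then (K s).1 else sw (if (K s).2.2 then w else x) (K s).1,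
    (K s).2.1, xor (K s).2.1 (K s).2.2), fun s => ?_, fun s => ?_, ?_, fun s => ?_⟩
  · simp only [h1]
    rcases K s with ⟨i, p, q⟩
    cases p <;> cases q <;> simp [stp]
  · simp only [run_append, h1, h2]
    rcases K s with ⟨i, p, q⟩
    cases p <;> cases q <;> simp [stp, sw_sw]
  · simp [h3]
  · have h5 := h4 s
    revert h5
    beta_reduce
    rcases K s with ⟨i, p, q⟩
    cases p <;> cases q <;> simp [col, blk_sw hy0 hy hyw]

theorem Rel.R {U V : List Bool} {x y w t : ℤ} (hc : Col x y w) (h : Rel U V x y w t) :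
    Rel (V ++ U) V x w y (sw y t) := by
  obtain ⟨K, h1, h2, h3, h4⟩ := h
  obtain ⟨hx0, hx, -, -, -, -, -, hxw, -⟩ := hc
  refine ⟨fun s => (if (K s).2.2 then (K s).1 else sw (if (K s).2.1 then w else y) (K s).1,
    xor (K s).2.1 (K s).2.2, (K s).2.2), fun s => ?_, fun s => ?_, ?_, fun s => ?_⟩
  · simp only [run_append, h1, h2]
    rcases K s with ⟨i, p, q⟩
    cases p <;> cases q <;> simp [stp, sw_sw]
  · simp only [h2]
    rcases K s with ⟨i, p, q⟩
    cases p <;> cases q <;> simp [stp]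
  · simp [h3]
  · have h5 := h4 s
    revert h5
    beta_reduce
    rcases K s with ⟨i, p, q⟩
    cases p <;> cases q <;> simp [col, blk_sw hx0 hx hxw]

theorem Rel.pos {U V : List Bool} {x y w t : ℤ} (h : Rel U V x y w t) :
    t - 3 ≤ (run U s0).1 ∧ (run U s0).1 ≤ t + 3 := by
  obtain ⟨K, h1, -, h3, h4⟩ := h
  have h5 := h4 (run U s0)
  rw [h1, h3] at h5
  have h6 := blk_near (h5 (by simp [stp]))
  have h7 := sw_near x t
  simp only [stp, Bool.false_eq_true, if_false] at h6
  omega

theorem Col.L {x y w : ℤ} (h : Col x y w) : Col w y x := by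
  unfold Col at *
  omega

theorem Col.R {x y w : ℤ} (h : Col x y w) : Col x w y := by
  unfold Col at *
  omega

def Good (U V : List Bool) : Prop :=
  ∃ (x y w t : ℤ) (j : ℕ), Col x y w ∧ Rel U V x y w t ∧ 2 ^ j ≤ U.length * V.length ∧
    (U.length ≤ V.length → ∃ i : ℤ, -(2 * j) ≤ i ∧ i ≤ 2 * j ∧ blk y t = blk y i) ∧
    (V.length ≤ U.length → ∃ i : ℤ, -(2 * j) ≤ i ∧ i ≤ 2 * j ∧ blk x t = blk x i)

theorem Good.base : Good [false] [true] :=
  ⟨0, 1, 2, 0, 0, by unfold Col; omega, Rel.base, by simp, fun _ => ⟨0, by simp, by simp, rfl⟩,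
    fun _ => ⟨0, by simp, by simp, rfl⟩⟩

theorem Good.L {U V : List Bool} (h : Good U V) : Good U (U ++ V) := by
  obtain ⟨x, y, w, t, j, hc, hr, hj, h1, h2⟩ := h
  have hV : 0 < V.length := by
    rcases Nat.eq_zero_or_pos V.length with h0 | h0
    · rw [h0, mul_zero] at hj
      exact absurd hj (by positivity |> not_le.mpr)
    · exact h0
  have hb : blk y (sw x t) = blk y t := blk_sw hc.2.2.1 hc.2.2.2.1 hc.2.2.2.2.2.2.1.symm t
  rcases le_total U.length V.length with hle | hle
  · obtain ⟨i, hi1, hi2, hi3⟩ := h1 hle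
    refine ⟨w, y, x, sw x t, j, hc.L, hr.L hc, hj.trans ?_, fun _ => ⟨i, hi1, hi2, hb.trans hi3⟩,
      fun h0 => ?_⟩
    · rw [List.length_append]
      exact Nat.mul_le_mul_left _ (by omega)
    · rw [List.length_append] at h0
      omega
  · obtain ⟨i, hi1, hi2, hi3⟩ := h2 hle
    have h3 := blk_near hi3
    refine ⟨w, y, x, sw x t, j + 1, hc.L, hr.L hc, ?_, fun _ => ⟨t, ?_, ?_, hb⟩, fun h0 => ?_⟩
    · rw [List.length_append, pow_succ]
      nlinarith
    · push_cast
      omega
    · push_cast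
      omega
    · rw [List.length_append] at h0
      omega

theorem Good.R {U V : List Bool} (h : Good U V) : Good (V ++ U) V := by
  obtain ⟨x, y, w, t, j, hc, hr, hj, h1, h2⟩ := h
  have hU : 0 < U.length := by
    rcases Nat.eq_zero_or_pos U.length with h0 | h0
    · rw [h0, zero_mul] at hj
      exact absurd hj (by positivity |> not_le.mpr)
    · exact h0
  have hb : blk x (sw y t) = blk x t := blk_sw hc.1 hc.2.1 hc.2.2.2.2.2.2.1 t
  rcases le_total V.length U.length with hle | hle
  · obtain ⟨i, hi1, hi2, hi3⟩ := h2 hle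
    refine ⟨x, w, y, sw y t, j, hc.R, hr.R hc, hj.trans ?_, fun h0 => ?_,
      fun _ => ⟨i, hi1, hi2, hb.trans hi3⟩⟩
    · rw [List.length_append]
      exact Nat.mul_le_mul_right _ (by omega)
    · rw [List.length_append] at h0
      omega
  · obtain ⟨i, hi1, hi2, hi3⟩ := h1 hle
    have h3 := blk_near hi3
    refine ⟨x, w, y, sw y t, j + 1, hc.R, hr.R hc, ?_, fun h0 => ?_, fun _ => ⟨t, ?_, ?_, hb⟩⟩
    · rw [List.length_append, pow_succ]
      nlinarith
    · rw [List.length_append] at h0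
      omega
    · push_cast
      omega
    · push_cast
      omega

theorem Good.pos {U V : List Bool} (h : Good U V) : ∃ j : ℕ, 2 ^ j ≤ U.length * V.length ∧
    -(2 * j + 5 : ℤ) ≤ (run U s0).1 ∧ (run U s0).1 ≤ 2 * j + 5 := by
  obtain ⟨x, y, w, t, j, -, hr, hj, h1, h2⟩ := h
  have h3 := hr.pos
  refine ⟨j, hj, ?_⟩
  rcases le_total U.length V.length with hle | hle
  · obtain ⟨i, hi1, hi2, hi3⟩ := h1 hle
    have := blk_near hi3
    omega
  · obtain ⟨i, hi1, hi2, hi3⟩ := h2 hle
    have := blk_near hi3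
    omega

/-- solutions of `X a b Y = Y b a X` -/
def Sol (X Y : List Bool) : Prop := X ++ [true, false] ++ Y = Y ++ [false, true] ++ X

theorem good_a : ∀ X : List Bool, X ++ [true] = true :: X → Good (X ++ [true, false]) [true]
  | [], _ => Good.base.R
  | c :: X, h => by
    obtain ⟨rfl, h1⟩ := List.cons_eq_cons.mp h
    exact (good_a X h1).R

theorem good_b : ∀ Y : List Bool, Y ++ [false] = false :: Y → Good [false] (Y ++ [false, true])
  | [], _ => Good.base.L
  | c :: Y, h => by
    obtain ⟨rfl, h1⟩ := List.cons_eq_cons.mp h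
    exact (good_b Y h1).L

theorem Sol.good : ∀ (n : ℕ) (X Y : List Bool), X.length + Y.length = n → Sol X Y →
    Good (X ++ [true, false]) (Y ++ [false, true]) := by
  intro n
  induction n using Nat.strong_induction_on with
  | _ n ih =>
    intro X Y hn h
    unfold Sol at h
    rw [List.append_assoc, List.append_assoc] at h
    rcases List.append_eq_append_iff.mp h with ⟨Z, rfl, h1⟩ | ⟨Z, rfl, h1⟩
    · match Z, h1 with
      | [], h1 => simp at h1
      | [c], h1 =>
        simp only [List.cons_append, List.nil_append, List.cons.injEq, true_and] at h1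
        obtain ⟨rfl, h1⟩ := h1
        have := (good_a X h1).L
        simpa using this
      | c :: d :: Z, h1 =>
        simp only [List.cons_append, List.nil_append, List.cons.injEq] at h1
        obtain ⟨rfl, rfl, h1⟩ := h1
        have := (ih _ (by simp at hn; omega) X Z rfl (by simpa [Sol] using h1)).L
        simpa using this
    · match Z, h1 with
      | [], h1 => simp at h1
      | [c], h1 =>
        simp only [List.cons_append, List.nil_append, List.cons.injEq, true_and] at h1
        obtain ⟨rfl, h1⟩ := h1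
        have := (good_b Y h1).R
        simpa using this
      | c :: d :: Z, h1 =>
        simp only [List.cons_append, List.nil_append, List.cons.injEq] at h1
        obtain ⟨rfl, rfl, h1⟩ := h1
        have := (ih _ (by simp at hn; omega) Z Y rfl (by simpa [Sol] using h1.symm)).R
        simpa using this

theorem stp_near (s : St) (l : Bool) :
    s.1 - 1 ≤ (stp 0 1 2 s l).1 ∧ (stp 0 1 2 s l).1 ≤ s.1 + 1 := by
  cases l <;> exact sw_near _ _

theorem run_near (X : List Bool) : (run X s0).1 - 2 ≤ (run (X ++ [true, false]) s0).1 ∧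
    (run (X ++ [true, false]) s0).1 ≤ (run X s0).1 + 2 := by
  rw [run_append]
  have h1 := stp_near (run X s0) true
  have h2 := stp_near (stp 0 1 2 (run X s0) true) false
  change _ ≤ (stp 0 1 2 (stp 0 1 2 (run X s0) true) false).1 ∧
    (stp 0 1 2 (stp 0 1 2 (run X s0) true) false).1 ≤ _
  omega

/-- the token moves only logarithmically far -/
theorem Sol.bound {X Y : List Bool} (h : Sol X Y) : ∃ j : ℕ,
    2 ^ j ≤ (X.length + 2 + Y.length) ^ 2 ∧
      -(2 * j + 7 : ℤ) ≤ (run X s0).1 ∧ (run X s0).1 ≤ 2 * j + 7 := by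
  obtain ⟨j, h1, h2, h3⟩ := (Sol.good _ X Y rfl h).pos
  have h4 := run_near X
  refine ⟨j, h1.trans ?_, by omega, by omega⟩
  simp only [List.length_append, List.length_cons, List.length_nil]
  nlinarith

theorem Sol.L {X Y : List Bool} (h : Sol X Y) : Sol X (X ++ [true, false] ++ Y) := by
  unfold Sol at *
  rw [List.append_assoc (X ++ [true, false]) Y, List.append_assoc (X ++ [true, false]), ← h]

theorem Sol.R {X Y : List Bool} (h : Sol X Y) : Sol (Y ++ [false, true] ++ X) Y := by
  unfold Sol at *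
  rw [List.append_assoc (Y ++ [false, true]) X, List.append_assoc (Y ++ [false, true]), h]

theorem fib_rel (k : ℕ) : ∃ X Y : List Bool, Sol X Y ∧
    Rel (X ++ [true, false]) (Y ++ [false, true]) ((2 * k + 2) % 3) ((2 * k + 3) % 3)
      ((2 * k + 4) % 3) (2 * k + 2) := by
  induction k with
  | zero =>
    have h0 : Col 0 1 2 := by unfold Col; omega
    exact ⟨[false], [], rfl, (Rel.base.L h0).R h0.L⟩
  | succ k ih =>
    obtain ⟨X, Y, hs, hr⟩ := ih
    have h0 : Col ((2 * k + 2) % 3) ((2 * k + 3) % 3) ((2 * k + 4) % 3) := by unfold Col; omega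
    have h1 := (hr.L h0).R h0.L
    refine ⟨_, _, hs.L.R, ?_⟩
    have e1 : (2 * ((k + 1 : ℕ) : ℤ) + 2) % 3 = (2 * k + 4) % 3 := by push_cast; omega
    have e2 : (2 * ((k + 1 : ℕ) : ℤ) + 3) % 3 = (2 * k + 2) % 3 := by push_cast; omega
    have e3 : (2 * ((k + 1 : ℕ) : ℤ) + 4) % 3 = (2 * k + 3) % 3 := by push_cast; omega
    have e4 : 2 * ((k + 1 : ℕ) : ℤ) + 2 =
        sw ((2 * k + 3) % 3) (sw ((2 * k + 2) % 3) (2 * k + 2)) := by
      unfold sw
      push_cast
      split_ifs <;> omega
    rw [e1, e2, e3, e4]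
    simpa using h1

/-- on Fibonacci words the token drifts linearly -/
theorem fib_pos (k : ℕ) : ∃ X Y : List Bool, Sol X Y ∧
    2 * k - 3 ≤ (run X s0).1 ∧ (run X s0).1 ≤ 2 * k + 7 := by
  obtain ⟨X, Y, hs, hr⟩ := fib_rel k
  have h1 := hr.pos
  have h2 := run_near X
  exact ⟨X, Y, hs, by omega, by omega⟩

end Pool.Agent.Lib.MP_493d38_lc
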